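import Mathlib

/-!
# The chromatic number of the signed orthogonality graph with four nonzero coordinates

The chromatic number of `J_±(n, 4, 0)` is not linear in `n`.
-/

set_option autoImplicit false

namespace Pool.Agent.Results.MP_9d843c_co.NotLinear

open Finset

/-- Counting quadruples on which a colouring of pairs is constant. -/
theorem all_equal_count {α γ : Type*} [Fintype γ] [DecidableEq γ] [DecidableEq α] (L : Finset α)
    (c : α → α → γ) :
    L.card ^ 4 ≤ (Fintype.card γ) ^ 3 *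
      (((L ×ˢ L) ×ˢ (L ×ˢ L)).filter (fun p : (α × α) × (α × α) => c p.1.1 p.2.1 = c p.1.1 p.2.2 ∧
        c p.1.1 p.2.1 = c p.1.2 p.2.1 ∧ c p.1.1 p.2.1 = c p.1.2 p.2.2)).card := by
  rcases L.eq_empty_or_nonempty with rfl | hL
  · simp
  let D : (α × α) × γ → ℕ := fun x => (L.filter (fun b => c x.1.1 b = x.2 ∧ c x.1.2 b = x.2)).card
  let m : α → γ → ℕ := fun b g => (L.filter (fun a => c a b = g)).card
  have h1 : (((L ×ˢ L) ×ˢ (L ×ˢ L)).filter (fun p : (α × α) × (α × α) =>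
      c p.1.1 p.2.1 = c p.1.1 p.2.2 ∧
        c p.1.1 p.2.1 = c p.1.2 p.2.1 ∧ c p.1.1 p.2.1 = c p.1.2 p.2.2)).card =
      ∑ x ∈ (L ×ˢ L) ×ˢ (Finset.univ : Finset γ), (D x) ^ 2 := by
    have h : ((L ×ˢ L) ×ˢ (L ×ˢ L)).filter (fun p : (α × α) × (α × α) =>
        c p.1.1 p.2.1 = c p.1.1 p.2.2 ∧
        c p.1.1 p.2.1 = c p.1.2 p.2.1 ∧ c p.1.1 p.2.1 = c p.1.2 p.2.2) =
        ((L ×ˢ L) ×ˢ (Finset.univ : Finset γ)).biUnion (fun x =>
          (((L.filter (fun b => c x.1.1 b = x.2 ∧ c x.1.2 b = x.2)) ×ˢ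
            (L.filter (fun b => c x.1.1 b = x.2 ∧ c x.1.2 b = x.2))).image (fun b => (x.1, b)))) := by
      ext ⟨⟨a, a'⟩, ⟨b, b'⟩⟩
      simp only [Finset.mem_filter, Finset.mem_product, Finset.mem_biUnion, Finset.mem_univ,
        and_true, Finset.mem_image, Prod.mk.injEq]
      constructor
      · rintro ⟨⟨⟨ha, ha'⟩, hb, hb'⟩, h1, h2, h3⟩
        exact ⟨((a, a'), c a b), ⟨ha, ha'⟩, (b, b'), ⟨⟨hb, rfl, h2.symm⟩, ⟨hb', h1.symm, h3.symm⟩⟩,
          rfl, rfl⟩
      · rintro ⟨⟨⟨x, x'⟩, g⟩, ⟨hx, hx'⟩, ⟨y, y'⟩, ⟨⟨hy, e1, e2⟩, ⟨hy', e3, e4⟩⟩, h5, h6⟩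
        simp only [Prod.mk.injEq] at h5 h6
        obtain ⟨rfl, rfl⟩ := h5
        obtain ⟨rfl, rfl⟩ := h6
        refine ⟨⟨⟨hx, hx'⟩, hy, hy'⟩, ?_, ?_, ?_⟩
        · rw [e1, e3]
        · rw [e1, e2]
        · rw [e1, e4]
    rw [h, Finset.card_biUnion]
    · refine Finset.sum_congr rfl fun x _ => ?_
      rw [Finset.card_image_of_injective _ (fun b b' hbb => (Prod.mk.inj hbb).2),
        Finset.card_product, sq]
    · rintro ⟨x, g⟩ _ ⟨x', g'⟩ _ hne
      rw [Function.onFun, Finset.disjoint_left]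
      rintro ⟨y, z⟩ hy hy'
      simp only [Finset.mem_image, Finset.mem_product, Finset.mem_filter, Prod.mk.injEq] at hy hy'
      obtain ⟨⟨b, b'⟩, ⟨⟨-, e1, -⟩, -⟩, rfl, h2⟩ := hy
      obtain ⟨⟨d, d'⟩, ⟨⟨-, e2, -⟩, -⟩, h3, h4⟩ := hy'
      subst h3
      apply hne
      have : b = d := by
        have := h2.trans h4.symm
        exact (Prod.mk.inj this).1
      rw [← e1, ← e2, this]
  have h2 : ∑ x ∈ (L ×ˢ L) ×ˢ (Finset.univ : Finset γ), D x = ∑ b ∈ L, ∑ g : γ, (m b g) ^ 2 := by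
    have hD : ∀ x, D x = ∑ b ∈ L, (if c x.1.1 b = x.2 then 1 else 0) *
        (if c x.1.2 b = x.2 then 1 else 0) := by
      intro x
      simp only [D, Finset.card_filter]
      refine Finset.sum_congr rfl fun b _ => ?_
      by_cases e1 : c x.1.1 b = x.2 <;> by_cases e2 : c x.1.2 b = x.2 <;> simp [e1, e2]
    simp only [hD]
    rw [Finset.sum_comm]
    refine Finset.sum_congr rfl fun b _ => ?_
    rw [Finset.sum_product_right]
    refine Finset.sum_congr rfl fun g _ => ?_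
    simp only [m, Finset.card_filter, sq]
    rw [Finset.sum_mul_sum, Finset.sum_product]
  have h3 : ∀ b, ∑ g : γ, m b g = L.card := by
    intro b
    have := Finset.card_eq_sum_card_fiberwise (f := fun a => c a b) (s := L) (t := Finset.univ)
      (fun _ _ => Finset.mem_univ _)
    exact this.symm
  have h4 : ∀ b, L.card ^ 2 ≤ Fintype.card γ * ∑ g : γ, (m b g) ^ 2 := by
    intro b
    rw [← h3 b, ← Finset.card_univ]
    exact sq_sum_le_card_mul_sum_sq
  have h5 : L.card ^ 3 ≤ Fintype.card γ * ∑ x ∈ (L ×ˢ L) ×ˢ (Finset.univ : Finset γ), D x := by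
    rw [h2, Finset.mul_sum]
    calc L.card ^ 3 = ∑ b ∈ L, L.card ^ 2 := by
          rw [Finset.sum_const, smul_eq_mul]; ring
      _ ≤ _ := Finset.sum_le_sum fun b _ => h4 b
  have h6 : (∑ x ∈ (L ×ˢ L) ×ˢ (Finset.univ : Finset γ), D x) ^ 2 ≤
      (L.card ^ 2 * Fintype.card γ) * ∑ x ∈ (L ×ˢ L) ×ˢ (Finset.univ : Finset γ), (D x) ^ 2 := by
    have := sq_sum_le_card_mul_sum_sq (s := (L ×ˢ L) ×ˢ (Finset.univ : Finset γ)) (f := D)
    rw [Finset.card_product, Finset.card_product, Finset.card_univ] at this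
    refine this.trans (le_of_eq ?_)
    simp only [Nat.cast_id]
    ring
  rw [h1]
  set G := ∑ x ∈ (L ×ˢ L) ×ˢ (Finset.univ : Finset γ), (D x) ^ 2
  set E := ∑ x ∈ (L ×ˢ L) ×ˢ (Finset.univ : Finset γ), D x
  have h7 : (L.card ^ 3) ^ 2 ≤ (Fintype.card γ * E) ^ 2 := Nat.pow_le_pow_left h5 2
  have hLpos : 0 < L.card ^ 2 := pow_pos (Finset.card_pos.2 hL) 2
  have h8 : L.card ^ 2 * L.card ^ 4 ≤ L.card ^ 2 * (Fintype.card γ ^ 3 * G) := by
    calc L.card ^ 2 * L.card ^ 4 = (L.card ^ 3) ^ 2 := by ring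
      _ ≤ (Fintype.card γ * E) ^ 2 := h7
      _ = Fintype.card γ ^ 2 * E ^ 2 := by ring
      _ ≤ Fintype.card γ ^ 2 * ((L.card ^ 2 * Fintype.card γ) * G) := Nat.mul_le_mul_left _ h6
      _ = L.card ^ 2 * (Fintype.card γ ^ 3 * G) := by ring
  exact Nat.le_of_mul_le_mul_left h8 hLpos

/-- The signs of the four coordinates of the vectors used in the proof. -/
def sgn : Fin 4 → ℤ := ![1, -1, 1, -1]

/-- The vector `e (q 0) - e (q 1) + e (q 2) - e (q 3)`. -/
def wv {n : ℕ} (q : Fin 4 → Fin n) (y : Fin n) : ℤ := ∑ k, if q k = y then sgn k else 0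

theorem wv_apply {n : ℕ} {q : Fin 4 → Fin n} (hq : Function.Injective q) (k : Fin 4) :
    wv q (q k) = sgn k := by
  unfold wv
  rw [Finset.sum_eq_single k]
  · simp
  · intro j _ hj
    rw [if_neg (fun h => hj (hq h))]
  · intro h
    exact absurd (Finset.mem_univ k) h

theorem wv_zero {n : ℕ} {q : Fin 4 → Fin n} {y : Fin n} (h : ∀ k, q k ≠ y) : wv q y = 0 := by
  unfold wv
  apply Finset.sum_eq_zero
  intro k _
  rw [if_neg (h k)]

theorem sgn_cases (k : Fin 4) : sgn k = 1 ∨ sgn k = -1 := by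
  fin_cases k <;> simp [sgn]

theorem wv_mem {n : ℕ} {q : Fin 4 → Fin n} (hq : Function.Injective q) (y : Fin n) :
    wv q y = -1 ∨ wv q y = 0 ∨ wv q y = 1 := by
  by_cases h : ∃ k, q k = y
  · obtain ⟨k, rfl⟩ := h
    rw [wv_apply hq]
    rcases sgn_cases k with h | h <;> simp [h]
  · push Not at h
    rw [wv_zero h]
    simp

theorem wv_support {n : ℕ} {q : Fin 4 → Fin n} (hq : Function.Injective q) :
    (Finset.univ.filter (fun y => wv q y ≠ 0)).card = 4 := by
  have h : Finset.univ.filter (fun y => wv q y ≠ 0) = Finset.univ.image q := by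
    ext y
    simp only [Finset.mem_filter, Finset.mem_univ, true_and, Finset.mem_image]
    constructor
    · intro h
      by_contra hcon
      push Not at hcon
      exact h (wv_zero hcon)
    · rintro ⟨k, rfl⟩
      rw [wv_apply hq]
      rcases sgn_cases k with h | h <;> simp [h]
  rw [h, Finset.card_image_of_injective _ hq]
  simp

theorem card_fixed {n : ℕ} (P : Finset (Fin 4)) (f : Fin 4 → Fin n) :
    (Finset.univ.filter (fun q : Fin 4 → Fin n => ∀ j ∈ P, q j = f j)).card ≤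
      n ^ (4 - P.card) := by
  have h : Finset.univ.filter (fun q : Fin 4 → Fin n => ∀ j ∈ P, q j = f j) =
      Fintype.piFinset (fun j => if j ∈ P then {f j} else Finset.univ) := by
    ext q
    simp only [Finset.mem_filter, Finset.mem_univ, true_and, Fintype.mem_piFinset]
    refine forall_congr' fun j => ?_
    by_cases hj : j ∈ P <;> simp [hj]
  rw [h, Fintype.card_piFinset]
  have h2 : ∀ j : Fin 4, (if j ∈ P then ({f j} : Finset (Fin n)) else Finset.univ).card =
      if j ∈ P then 1 else n := by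
    intro j
    by_cases hj : j ∈ P <;> simp [hj]
  simp only [h2]
  rw [Finset.prod_ite, Finset.prod_const_one, one_mul, Finset.prod_const]
  apply le_of_eq
  congr 1
  have : Finset.univ.filter (fun x => x ∉ P) = Pᶜ := by
    ext x
    simp
  rw [this, Finset.card_compl, Fintype.card_fin]

section Core

variable {n : ℕ} (κ : (Fin 4 → Fin n) → ℕ)

open Classical in
/-- The quadruples of colour `t`. -/
noncomputable def cls (t : ℕ) : Finset (Fin 4 → Fin n) :=
  Finset.univ.filter (fun q => Function.Injective q ∧ κ q = t)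

/-- The colour class is a star: its members have a common coordinate. -/
def IsStar (t : ℕ) (x : Fin n) : Prop := ∀ q ∈ cls κ t, ∃ k, q k = x

variable {κ}

theorem mem_cls {t : ℕ} {q : Fin 4 → Fin n} : q ∈ cls κ t ↔ Function.Injective q ∧ κ q = t := by
  simp [cls]

variable (hκ : ∀ q q' : Fin 4 → Fin n, Function.Injective q → Function.Injective q' → κ q = κ q' →
  ∑ y, wv q y * wv q' y ≠ 0)

include hκ in
theorem meet {t : ℕ} {q q' : Fin 4 → Fin n} (hq : q ∈ cls κ t) (hq' : q' ∈ cls κ t) :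
    ∃ k l, q k = q' l := by
  rw [mem_cls] at hq hq'
  by_contra hcon
  push Not at hcon
  apply hκ q q' hq.1 hq'.1 (hq.2.trans hq'.2.symm)
  apply Finset.sum_eq_zero
  intro y _
  by_cases h : ∃ k, q k = y
  · obtain ⟨k, rfl⟩ := h
    rw [wv_zero (q := q') (fun l h => hcon k l h.symm), mul_zero]
  · push Not at h
    rw [wv_zero h, zero_mul]

theorem sgn_mul_cases : ∀ j l : Fin 4, sgn j * sgn l = 1 ∨ sgn j * sgn l = -1 := by
  decide

theorem sgn_aux : ∀ k l k' l' : Fin 4, sgn k * sgn l = 1 → sgn k' * sgn l' = -1 →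
    sgn k * sgn k' + sgn l * sgn l' = 0 := by
  decide

include hκ in
theorem third_common {t : ℕ} {q q' : Fin 4 → Fin n} (hq : q ∈ cls κ t) (hq' : q' ∈ cls κ t)
    {k l k' l' : Fin 4} {x z : Fin n} (hxz : z ≠ x) (h1 : q k = x) (h2 : q l = z) (h3 : q' k' = x)
    (h4 : q' l' = z) (h5 : sgn k * sgn l = 1 ∧ sgn k' * sgn l' = -1 ∨
      sgn k * sgn l = -1 ∧ sgn k' * sgn l' = 1) :
    ∃ m m', q m = q' m' ∧ q m ≠ x ∧ q m ≠ z := by
  rw [mem_cls] at hq hq'
  by_contra hcon
  push Not at hcon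
  apply hκ q q' hq.1 hq'.1 (hq.2.trans hq'.2.symm)
  have hsub : ∑ y, wv q y * wv q' y = ∑ y ∈ ({x, z} : Finset (Fin n)), wv q y * wv q' y := by
    symm
    apply Finset.sum_subset (Finset.subset_univ _)
    intro y _ hy
    rw [Finset.mem_insert, Finset.mem_singleton, not_or] at hy
    by_cases h : ∃ m, q m = y
    · obtain ⟨m, rfl⟩ := h
      rw [wv_zero (q := q') (fun m' h => hy.2 (hcon m m' h.symm hy.1)), mul_zero]
    · push Not at h
      rw [wv_zero h, zero_mul]
  rw [hsub, Finset.sum_pair hxz.symm]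
  have e1 : wv q x = sgn k := by rw [← h1, wv_apply hq.1]
  have e2 : wv q z = sgn l := by rw [← h2, wv_apply hq.1]
  have e3 : wv q' x = sgn k' := by rw [← h3, wv_apply hq'.1]
  have e4 : wv q' z = sgn l' := by rw [← h4, wv_apply hq'.1]
  rw [e1, e2, e3, e4]
  rcases h5 with h5 | h5
  · exact sgn_aux k l k' l' h5.1 h5.2
  · have := sgn_aux k' l' k l h5.2 h5.1
    linarith [mul_comm (sgn k) (sgn k'), mul_comm (sgn l) (sgn l')]

include hκ in
theorem card_nonstar (x₀ : Fin n) {t : ℕ} (ht : ∀ x, ¬ IsStar κ t x) :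
    (cls κ t).card ≤ 256 * n ^ 2 := by
  classical
  unfold IsStar at ht
  push Not at ht
  choose Q hQ1 hQ2 using ht
  let q0 := Q x₀
  let f : Fin 4 × Fin 4 × Fin 4 × Fin 4 → Finset (Fin 4 → Fin n) := fun p =>
    if p.2.2.1 = p.2.2.2 then ∅ else
    Finset.univ.filter (fun q : Fin 4 → Fin n => ∀ j ∈ ({p.2.2.1, p.2.2.2} : Finset (Fin 4)),
      q j = if j = p.2.2.1 then q0 p.1 else Q (q0 p.1) p.2.1)
  have hsub : cls κ t ⊆ Finset.univ.biUnion f := by
    intro q hq
    obtain ⟨j, i, hji⟩ := meet hκ hq (hQ1 x₀)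
    obtain ⟨l, k, hlk⟩ := meet hκ hq (hQ1 (q0 i))
    have hlj : l ≠ j := by
      rintro rfl
      apply hQ2 (q0 i) k
      rw [← hlk, hji]
    rw [Finset.mem_biUnion]
    refine ⟨(i, k, j, l), Finset.mem_univ _, ?_⟩
    simp only [f, if_neg hlj.symm, Finset.mem_filter, Finset.mem_univ, true_and,
      Finset.mem_insert, Finset.mem_singleton]
    rintro m (rfl | rfl)
    · rw [if_pos rfl]
      exact hji
    · rw [if_neg hlj]
      exact hlk
  refine (Finset.card_le_card hsub).trans (Finset.card_biUnion_le.trans ?_)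
  have hf : ∀ p ∈ (Finset.univ : Finset (Fin 4 × Fin 4 × Fin 4 × Fin 4)), (f p).card ≤ n ^ 2 := by
    rintro ⟨i, k, j, l⟩ _
    simp only [f]
    by_cases h : j = l
    · rw [if_pos h]
      simp
    · rw [if_neg h]
      refine (card_fixed _ _).trans ?_
      rw [Finset.card_pair h]
  refine (Finset.sum_le_card_nsmul _ _ _ hf).trans ?_
  simp [Finset.card_univ]

include hκ in
theorem exc_aux {t : ℕ} {x z : Fin n} (hxz : z ≠ x) (ht : IsStar κ t x)
    {q₁ q₂ : Fin 4 → Fin n} (hq₁ : q₁ ∈ cls κ t) (hq₂ : q₂ ∈ cls κ t)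
    {k₁ l₁ k₂ l₂ : Fin 4} (h1 : q₁ k₁ = x) (h2 : q₁ l₁ = z) (h3 : q₂ k₂ = x) (h4 : q₂ l₂ = z)
    (h5 : sgn k₁ * sgn l₁ = 1) (h6 : sgn k₂ * sgn l₂ = -1) (q : Fin 4 → Fin n)
    (hq : q ∈ cls κ t) (l : Fin 4) (hl : q l = z) :
    ∃ j m : Fin 4, ∃ y : Fin n, (y ∈ Finset.univ.image q₁ ∪ Finset.univ.image q₂) ∧
      j ≠ l ∧ j ≠ m ∧ l ≠ m ∧ q j = x ∧ q m = y := by
  obtain ⟨j, hj⟩ := ht q hq
  have key : ∃ m : Fin 4, ∃ y, (y ∈ Finset.univ.image q₁ ∪ Finset.univ.image q₂) ∧ q m = y ∧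
      q m ≠ x ∧ q m ≠ z := by
    rcases sgn_mul_cases j l with hss | hss
    · obtain ⟨m, m', hm, h⟩ := third_common hκ hq hq₂ hxz hj hl h3 h4 (Or.inl ⟨hss, h6⟩)
      exact ⟨m, q₂ m', Finset.mem_union_right _ (Finset.mem_image_of_mem _ (Finset.mem_univ _)),
        hm, h⟩
    · obtain ⟨m, m', hm, h⟩ := third_common hκ hq hq₁ hxz hj hl h1 h2 (Or.inr ⟨hss, h5⟩)
      exact ⟨m, q₁ m', Finset.mem_union_left _ (Finset.mem_image_of_mem _ (Finset.mem_univ _)),
        hm, h⟩
  obtain ⟨m, y, hy, hm, hmx, hmz⟩ := key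
  refine ⟨j, m, y, hy, ?_, ?_, ?_, hj, hm⟩
  · rintro rfl
    exact hxz (hl.symm.trans hj)
  · rintro rfl
    exact hmx hj
  · rintro rfl
    exact hmz hl

theorem card_three (x z y : Fin n) (j l m : Fin 4) (h1 : j ≠ l) (h2 : j ≠ m) (h3 : l ≠ m) :
    (Finset.univ.filter (fun q : Fin 4 → Fin n => q j = x ∧ q l = z ∧ q m = y)).card ≤ n := by
  have hsub : Finset.univ.filter (fun q : Fin 4 → Fin n => q j = x ∧ q l = z ∧ q m = y) ⊆
      Finset.univ.filter (fun q : Fin 4 → Fin n => ∀ i ∈ ({j, l, m} : Finset (Fin 4)),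
        q i = if i = j then x else if i = l then z else y) := by
    intro q hq
    simp only [Finset.mem_filter, Finset.mem_univ, true_and, Finset.mem_insert,
      Finset.mem_singleton] at hq ⊢
    intro i hi
    rcases hi with hi | hi | hi
    · rw [hi, if_pos rfl]
      exact hq.1
    · rw [hi, if_neg h1.symm, if_pos rfl]
      exact hq.2.1
    · rw [hi, if_neg h2.symm, if_neg h3.symm]
      exact hq.2.2
  refine (Finset.card_le_card hsub).trans ((card_fixed _ _).trans ?_)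
  rw [Finset.card_insert_of_notMem (by simp [h1, h2]), Finset.card_pair h3]
  simp

include hκ in
theorem card_exc {t : ℕ} {x z : Fin n} (hxz : z ≠ x) (ht : IsStar κ t x)
    {q₁ q₂ : Fin 4 → Fin n} (hq₁ : q₁ ∈ cls κ t) (hq₂ : q₂ ∈ cls κ t)
    {k₁ l₁ k₂ l₂ : Fin 4} (h1 : q₁ k₁ = x) (h2 : q₁ l₁ = z) (h3 : q₂ k₂ = x) (h4 : q₂ l₂ = z)
    (h5 : sgn k₁ * sgn l₁ = 1) (h6 : sgn k₂ * sgn l₂ = -1) :
    ((cls κ t).filter (fun q => ∃ l, q l = z)).card ≤ 512 * n := by
  classical
  have hsub : (cls κ t).filter (fun q => ∃ l, q l = z) ⊆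
      ((Finset.univ : Finset (Fin 4 × Fin 4 × Fin 4)) ×ˢ
        (Finset.univ.image q₁ ∪ Finset.univ.image q₂)).biUnion (fun p =>
          if p.1.1 ≠ p.1.2.1 ∧ p.1.1 ≠ p.1.2.2 ∧ p.1.2.1 ≠ p.1.2.2 then
            Finset.univ.filter (fun q : Fin 4 → Fin n =>
              q p.1.1 = x ∧ q p.1.2.1 = z ∧ q p.1.2.2 = p.2) else ∅) := by
    intro q hq0
    rw [Finset.mem_biUnion]
    rw [Finset.mem_filter] at hq0
    have hq1 := hq0.1
    have hq2 := hq0.2
    clear hq0
    obtain ⟨l, hl⟩ := hq2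
    obtain ⟨j, m, y, hy, hjl, hjm, hlm, hj, hm⟩ := exc_aux hκ hxz ht hq₁ hq₂ h1 h2 h3 h4 h5 h6 q
      hq1 l hl
    refine ⟨((j, l, m), y), ?_, ?_⟩
    · rw [Finset.mem_product]
      exact ⟨Finset.mem_univ _, hy⟩
    · rw [if_pos ⟨hjl, hjm, hlm⟩, Finset.mem_filter]
      exact ⟨Finset.mem_univ _, hj, hl, hm⟩
  refine (Finset.card_le_card hsub).trans (Finset.card_biUnion_le.trans ?_)
  refine (Finset.sum_le_card_nsmul _ _ n ?_).trans ?_
  · intro p _
    split_ifs with h
    · exact card_three _ _ _ _ _ _ h.1 h.2.1 h.2.2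
    · simp
  · rw [Finset.card_product, smul_eq_mul]
    have h8 : (Finset.univ.image q₁ ∪ Finset.univ.image q₂).card ≤ 8 := by
      refine (Finset.card_union_le _ _).trans ?_
      have a1 : (Finset.univ.image q₁).card ≤ 4 := Finset.card_image_le.trans (by simp)
      have a2 : (Finset.univ.image q₂).card ≤ 4 := Finset.card_image_le.trans (by simp)
      omega
    have h64 : (Finset.univ : Finset (Fin 4 × Fin 4 × Fin 4)).card = 64 := by
      simp [Finset.card_univ]
    rw [h64]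
    nlinarith

end Core

section Combine

variable {n : ℕ}

theorem exists_idx (s : Finset ℕ) (K : ℕ) (h : s.card ≤ K) :
    ∃ f : ℕ → Fin (K + 1), Set.InjOn f s := by
  classical
  refine ⟨fun t => if h' : t ∈ s then Fin.castLE (by omega) (s.equivFin ⟨t, h'⟩) else 0, ?_⟩
  intro a ha b hb hab
  rw [Finset.mem_coe] at ha hb
  simp only [dif_pos ha, dif_pos hb] at hab
  have := s.equivFin.injective (Fin.castLE_injective _ hab)
  exact congrArg Subtype.val this

theorem card_not_injective (n : ℕ) :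
    (Finset.univ.filter (fun q : Fin 4 → Fin n => ¬ Function.Injective q)).card ≤ 16 * n ^ 3 := by
  classical
  have hsub : Finset.univ.filter (fun q : Fin 4 → Fin n => ¬ Function.Injective q) ⊆
      (Finset.univ : Finset ((Fin 4 × Fin 4) × Fin n)).biUnion (fun p =>
        if p.1.1 = p.1.2 then ∅ else Finset.univ.filter (fun q : Fin 4 → Fin n =>
          ∀ j ∈ ({p.1.1, p.1.2} : Finset (Fin 4)), q j = p.2)) := by
    intro q hq
    rw [Finset.mem_biUnion]
    rw [Finset.mem_filter, Function.Injective] at hq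
    have hq' := hq.2
    clear hq
    push Not at hq'
    obtain ⟨i, j, hij, hne⟩ := hq'
    refine ⟨((i, j), q i), Finset.mem_univ _, ?_⟩
    rw [if_neg hne, Finset.mem_filter]
    refine ⟨Finset.mem_univ _, ?_⟩
    intro m hm
    rw [Finset.mem_insert, Finset.mem_singleton] at hm
    rcases hm with hm | hm
    · rw [hm]
    · rw [hm]
      exact hij.symm
  refine (Finset.card_le_card hsub).trans (Finset.card_biUnion_le.trans ?_)
  refine (Finset.sum_le_card_nsmul _ _ (n ^ 2) ?_).trans ?_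
  · intro p _
    split_ifs with h
    · simp
    · refine (card_fixed _ (fun _ => p.2)).trans ?_
      rw [Finset.card_pair h]
  · rw [Finset.card_univ, Fintype.card_prod, Fintype.card_prod, Fintype.card_fin,
      Fintype.card_fin, smul_eq_mul]
    apply le_of_eq
    ring

theorem core (x₀ : Fin n) (C N : ℕ) (hN : N ≤ C * n) (κ : (Fin 4 → Fin n) → ℕ)
    (hlt : ∀ q, Function.Injective q → κ q < N)
    (hκ : ∀ q q' : Fin 4 → Fin n, Function.Injective q → Function.Injective q' → κ q = κ q' →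
      ∑ y, wv q y * wv q' y ≠ 0) :
    n ≤ 16 * ((2 ^ (2 * C + 1)) ^ 2) ^ 3 * (16 + 768 * C) := by
  classical
  have hnpos : 0 < n := x₀.pos
  let ctr : ℕ → Fin n := fun t => if h : ∃ x, IsStar κ t x then h.choose else x₀
  have hctr : ∀ t, (∃ x, IsStar κ t x) → IsStar κ t (ctr t) := by
    intro t h
    simp only [ctr, dif_pos h]
    exact h.choose_spec
  let Cx : Fin n → Finset ℕ := fun x =>
    (Finset.range N).filter (fun t => (∃ x', IsStar κ t x') ∧ ctr t = x)
  have hsum : ∑ x, (Cx x).card ≤ N := by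
    have hdisj : ∀ x ∈ (Finset.univ : Finset (Fin n)), ∀ y ∈ (Finset.univ : Finset (Fin n)),
        x ≠ y → Disjoint (Cx x) (Cx y) := by
      intro x _ y _ hxy
      rw [Finset.disjoint_left]
      intro t h1 h2
      exact hxy ((Finset.mem_filter.1 h1).2.2.symm.trans (Finset.mem_filter.1 h2).2.2)
    rw [← Finset.card_biUnion hdisj]
    calc _ ≤ (Finset.range N).card := by
          apply Finset.card_le_card
          intro t ht
          rw [Finset.mem_biUnion] at ht
          obtain ⟨x, -, hx⟩ := ht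
          exact (Finset.mem_filter.1 hx).1
      _ = N := Finset.card_range N
  let L : Finset (Fin n) := Finset.univ.filter (fun x => (Cx x).card ≤ 2 * C)
  have hL : n ≤ 2 * L.card := by
    have h1 : (2 * C + 1) * (Finset.univ.filter (fun x => ¬ (Cx x).card ≤ 2 * C)).card ≤ N := by
      calc (2 * C + 1) * (Finset.univ.filter (fun x => ¬ (Cx x).card ≤ 2 * C)).card
          = ∑ x ∈ Finset.univ.filter (fun x => ¬ (Cx x).card ≤ 2 * C), (2 * C + 1) := by
            rw [Finset.sum_const, smul_eq_mul, mul_comm]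
        _ ≤ ∑ x ∈ Finset.univ.filter (fun x => ¬ (Cx x).card ≤ 2 * C), (Cx x).card := by
            apply Finset.sum_le_sum
            intro x hx
            have := (Finset.mem_filter.1 hx).2
            omega
        _ ≤ ∑ x, (Cx x).card := Finset.sum_le_sum_of_subset (Finset.subset_univ _)
        _ ≤ N := hsum
    have h2 : L.card + (Finset.univ.filter (fun x => ¬ (Cx x).card ≤ 2 * C)).card = n := by
      have := Finset.card_filter_add_card_filter_not (s := (Finset.univ : Finset (Fin n)))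
        (fun x => (Cx x).card ≤ 2 * C)
      rw [Finset.card_univ, Fintype.card_fin] at this
      exact this
    set H := (Finset.univ.filter (fun x => ¬ (Cx x).card ≤ 2 * C)).card
    have h3 : (2 * C + 1) * (2 * H) ≤ (2 * C + 1) * n := by nlinarith
    have h4 : 2 * H ≤ n := Nat.le_of_mul_le_mul_left h3 (by omega)
    omega
  have hidx : ∀ x : Fin n, ∃ f : ℕ → Fin (2 * C + 1), x ∈ L → Set.InjOn f (Cx x) := by
    intro x
    by_cases hx : x ∈ L
    · obtain ⟨f, hf⟩ := exists_idx (Cx x) (2 * C) (Finset.mem_filter.1 hx).2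
      exact ⟨f, fun _ => hf⟩
    · exact ⟨fun _ => 0, fun h => absurd h hx⟩
  choose idx hidx using hidx
  let plus : ℕ → Fin n → Fin n → Prop := fun t x z =>
    ∃ q ∈ cls κ t, ∃ k l, q k = x ∧ q l = z ∧ sgn k * sgn l = 1
  let minus : ℕ → Fin n → Fin n → Prop := fun t x z =>
    ∃ q ∈ cls κ t, ∃ k l, q k = x ∧ q l = z ∧ sgn k * sgn l = -1
  let τ : Fin n → Fin n → (Fin (2 * C + 1) → Bool) := fun x z j =>
    decide (∃ t ∈ Cx x, idx x t = j ∧ plus t x z)
  have htrans : ∀ x ∈ L, ∀ t ∈ Cx x, ∀ z z', τ x z = τ x z' → plus t x z → plus t x z' := by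
    intro x hx t ht z z' hzz hp
    have h1 : τ x z (idx x t) = true := by
      simp only [τ, decide_eq_true_eq]
      exact ⟨t, ht, rfl, hp⟩
    rw [hzz] at h1
    simp only [τ, decide_eq_true_eq] at h1
    obtain ⟨t', ht', he, hp'⟩ := h1
    have : t' = t := hidx x hx (Finset.mem_coe.2 ht') (Finset.mem_coe.2 ht) he
    rwa [this] at hp'
  let NS : Finset (Fin 4 → Fin n) := (Finset.range N).biUnion (fun t =>
    if ∀ x, ¬ IsStar κ t x then cls κ t else ∅)
  let EX : Finset (Fin 4 → Fin n) := ((Finset.range N) ×ˢ (Finset.univ : Finset (Fin n))).biUnion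
    (fun p => if (∃ x, IsStar κ p.1 x) ∧ p.2 ≠ ctr p.1 ∧ plus p.1 (ctr p.1) p.2 ∧
      minus p.1 (ctr p.1) p.2 then (cls κ p.1).filter (fun q => ∃ l, q l = p.2) else ∅)
  let DG : Finset (Fin 4 → Fin n) := Finset.univ.filter (fun q => ¬ Function.Injective q)
  have hNS : NS.card ≤ N * (256 * n ^ 2) := by
    refine Finset.card_biUnion_le.trans ((Finset.sum_le_card_nsmul _ _ (256 * n ^ 2) ?_).trans ?_)
    · intro t _
      split_ifs with h
      · exact card_nonstar hκ x₀ h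
      · simp
    · rw [Finset.card_range, smul_eq_mul]
  have hEX : EX.card ≤ N * n * (512 * n) := by
    refine Finset.card_biUnion_le.trans ((Finset.sum_le_card_nsmul _ _ (512 * n) ?_).trans ?_)
    · intro p _
      split_ifs with h
      · obtain ⟨h1, h2, ⟨q₁, hq₁, k₁, l₁, e1, e2, e3⟩, ⟨q₂, hq₂, k₂, l₂, e4, e5, e6⟩⟩ := h
        exact card_exc hκ h2 (hctr _ h1) hq₁ hq₂ e1 e2 e4 e5 e3 e6
      · simp
    · rw [Finset.card_product, Finset.card_range, Finset.card_univ, Fintype.card_fin, smul_eq_mul]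
  have hDG : DG.card ≤ 16 * n ^ 3 := card_not_injective n
  let c : Fin n → Fin n → (Fin (2 * C + 1) → Bool) × (Fin (2 * C + 1) → Bool) :=
    fun a b => (τ a b, τ b a)
  have hcount := all_equal_count L c
  have hcardγ : Fintype.card ((Fin (2 * C + 1) → Bool) × (Fin (2 * C + 1) → Bool)) =
      (2 ^ (2 * C + 1)) ^ 2 := by
    simp [Fintype.card_prod, sq]
  rw [hcardγ] at hcount
  set G := ((L ×ˢ L) ×ˢ (L ×ˢ L)).filter (fun p : (Fin n × Fin n) × (Fin n × Fin n) =>
    c p.1.1 p.2.1 = c p.1.1 p.2.2 ∧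
        c p.1.1 p.2.1 = c p.1.2 p.2.1 ∧ c p.1.1 p.2.1 = c p.1.2 p.2.2) with hG
  -- the main inclusion
  have hexc : ∀ (q : Fin 4 → Fin n), Function.Injective q → ∀ j l l' : Fin 4, j ≠ l → j ≠ l' →
      q j ∈ L → IsStar κ (κ q) (q j) → ctr (κ q) = q j → τ (q j) (q l) = τ (q j) (q l') →
      sgn j * sgn l = 1 → sgn j * sgn l' = -1 → q ∈ EX := by
    intro q hq j l l' hjl hjl' hL hst hc hτ h1 h2
    have hmem : q ∈ cls κ (κ q) := mem_cls.2 ⟨hq, rfl⟩
    have hCx : κ q ∈ Cx (q j) :=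
      Finset.mem_filter.2 ⟨Finset.mem_range.2 (hlt q hq), ⟨_, hst⟩, hc⟩
    have hp : plus (κ q) (q j) (q l') :=
      htrans (q j) hL (κ q) hCx (q l) (q l') hτ ⟨q, hmem, j, l, rfl, rfl, h1⟩
    have hm : minus (κ q) (q j) (q l') := ⟨q, hmem, j, l', rfl, rfl, h2⟩
    rw [Finset.mem_biUnion]
    refine ⟨(κ q, q l'), ?_, ?_⟩
    · rw [Finset.mem_product]
      exact ⟨Finset.mem_range.2 (hlt q hq), Finset.mem_univ _⟩
    · rw [if_pos, Finset.mem_filter]
      · exact ⟨hmem, l', rfl⟩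
      · rw [hc]
        exact ⟨⟨_, hst⟩, fun h => hjl' (hq h.symm), hp, hm⟩
  have hmain : ∀ p ∈ G, (![p.1.1, p.1.2, p.2.1, p.2.2] : Fin 4 → Fin n) ∈ DG ∪ (NS ∪ EX) := by
    intro p hp
    rw [hG, Finset.mem_filter, Finset.mem_product, Finset.mem_product, Finset.mem_product] at hp
    obtain ⟨⟨⟨ha, ha'⟩, hb, hb'⟩, e1, e2, e3⟩ := hp
    set q : Fin 4 → Fin n := ![p.1.1, p.1.2, p.2.1, p.2.2] with hqdef
    have q0 : q 0 = p.1.1 := rfl
    have q1 : q 1 = p.1.2 := rfl
    have q2 : q 2 = p.2.1 := rfl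
    have q3 : q 3 = p.2.2 := rfl
    by_cases hq : Function.Injective q
    swap
    · exact Finset.mem_union_left _ (Finset.mem_filter.2 ⟨Finset.mem_univ _, hq⟩)
    apply Finset.mem_union_right
    have hmem : q ∈ cls κ (κ q) := mem_cls.2 ⟨hq, rfl⟩
    by_cases hst : ∃ x, IsStar κ (κ q) x
    swap
    · apply Finset.mem_union_left
      rw [Finset.mem_biUnion]
      refine ⟨κ q, Finset.mem_range.2 (hlt q hq), ?_⟩
      push Not at hst
      rw [if_pos hst]
      exact hmem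
    apply Finset.mem_union_right
    have hs := hctr _ hst
    obtain ⟨j, hj⟩ := hs q hmem
    rw [← hj] at hs
    have t1 : τ (q 0) (q 2) = τ (q 0) (q 3) := congrArg Prod.fst e1
    have t2 : τ (q 1) (q 2) = τ (q 1) (q 3) := congrArg Prod.fst (e2.symm.trans e3)
    have t3 : τ (q 2) (q 0) = τ (q 2) (q 1) := congrArg Prod.snd e2
    have t4 : τ (q 3) (q 0) = τ (q 3) (q 1) := congrArg Prod.snd (e1.symm.trans e3)
    have hcases : j = 0 ∨ j = 1 ∨ j = 2 ∨ j = 3 := by omega
    rcases hcases with rfl | rfl | rfl | rfl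
    · exact hexc q hq 0 2 3 (by decide) (by decide) ha hs hj.symm t1 (by decide) (by decide)
    · exact hexc q hq 1 3 2 (by decide) (by decide) ha' hs hj.symm t2.symm (by decide) (by decide)
    · exact hexc q hq 2 0 1 (by decide) (by decide) hb hs hj.symm t3 (by decide) (by decide)
    · exact hexc q hq 3 1 0 (by decide) (by decide) hb' hs hj.symm t4.symm (by decide) (by decide)
  have hGcard : G.card ≤ 16 * n ^ 3 + (N * (256 * n ^ 2) + N * n * (512 * n)) := by
    have h1 : G.card ≤ (DG ∪ (NS ∪ EX)).card := by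
      refine Finset.card_le_card_of_injOn
        (fun p => (![p.1.1, p.1.2, p.2.1, p.2.2] : Fin 4 → Fin n)) hmain ?_
      intro p _ p' _ h
      have h0 := congrFun h 0
      have h1 := congrFun h 1
      have h2 := congrFun h 2
      have h3 := congrFun h 3
      exact Prod.ext (Prod.ext h0 h1) (Prod.ext h2 h3)
    refine h1.trans ((Finset.card_union_le _ _).trans ?_)
    exact add_le_add hDG ((Finset.card_union_le _ _).trans (add_le_add hNS hEX))
  have hGcard' : G.card ≤ (16 + 768 * C) * n ^ 3 := by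
    refine hGcard.trans ?_
    have h1 : N * (256 * n ^ 2) ≤ C * n * (256 * n ^ 2) := Nat.mul_le_mul_right _ hN
    have h2 : N * n * (512 * n) ≤ C * n * n * (512 * n) :=
      Nat.mul_le_mul_right _ (Nat.mul_le_mul_right _ hN)
    calc _ ≤ 16 * n ^ 3 + (C * n * (256 * n ^ 2) + C * n * n * (512 * n)) := by omega
      _ = _ := by ring
  have hfin : n ^ 3 * n ≤ n ^ 3 * (16 * ((2 ^ (2 * C + 1)) ^ 2) ^ 3 * (16 + 768 * C)) := by
    calc n ^ 3 * n = n ^ 4 := by ring
      _ ≤ (2 * L.card) ^ 4 := Nat.pow_le_pow_left hL 4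
      _ = 16 * L.card ^ 4 := by ring
      _ ≤ 16 * (((2 ^ (2 * C + 1)) ^ 2) ^ 3 * G.card) := Nat.mul_le_mul_left _ hcount
      _ ≤ 16 * (((2 ^ (2 * C + 1)) ^ 2) ^ 3 * ((16 + 768 * C) * n ^ 3)) :=
          Nat.mul_le_mul_left _ (Nat.mul_le_mul_left _ hGcard')
      _ = _ := by ring
  exact Nat.le_of_mul_le_mul_left hfin (pow_pos hnpos 3)

end Combine

/-- The graph `J_±(n, k, t)`: vertices are the vectors in `{-1, 0, 1} ^ n` with exactly `k` nonzero
coordinates, two distinct ones being adjacent when their scalar product is `t`. -/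
def J (n k : ℕ) (t : ℤ) : SimpleGraph {v : Fin n → ℤ // (∀ i, v i = -1 ∨ v i = 0 ∨ v i = 1) ∧
    (Finset.univ.filter (fun i => v i ≠ 0)).card = k} where
  Adj u v := u ≠ v ∧ ∑ i, u.1 i * v.1 i = t
  symm := ⟨by
    rintro u v ⟨h1, h2⟩
    refine ⟨h1.symm, ?_⟩
    rw [← h2]
    exact Finset.sum_congr rfl fun i _ => mul_comm _ _⟩
  loopless := ⟨fun u h => h.1 rfl⟩

/-- The chromatic number of `J_±(n, 4, 0)` grows faster than linearly in `n`: for every `C` it is
larger than `C * n` for all large `n`. -/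
theorem result : ∀ C : ℕ, ∃ n₀ : ℕ, ∀ n : ℕ, n₀ ≤ n →
    ((C * n : ℕ) : ℕ∞) < (J n 4 0).chromaticNumber := by
  intro C
  refine ⟨16 * ((2 ^ (2 * C + 1)) ^ 2) ^ 3 * (16 + 768 * C) + 1, fun n hn => ?_⟩
  by_contra hcon
  push Not at hcon
  rw [SimpleGraph.chromaticNumber_le_iff_colorable] at hcon
  obtain ⟨c⟩ := hcon
  have hpos : 0 < n := by omega
  let κ : (Fin 4 → Fin n) → ℕ := fun q => if h : Function.Injective q then
    (c ⟨wv q, wv_mem h, wv_support h⟩ : Fin (C * n)).val else 0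
  have hlt : ∀ q, Function.Injective q → κ q < C * n := by
    intro q hq
    simp only [κ, dif_pos hq]
    exact (c _).2
  have hκ : ∀ q q' : Fin 4 → Fin n, Function.Injective q → Function.Injective q' → κ q = κ q' →
      ∑ y, wv q y * wv q' y ≠ 0 := by
    intro q q' hq hq' heq h0
    simp only [κ, dif_pos hq, dif_pos hq'] at heq
    by_cases hne : wv q = wv q'
    · rw [← hne] at h0
      have h1 := (Finset.sum_eq_zero_iff_of_nonneg (fun y _ => mul_self_nonneg (wv q y))).1 h0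
        (q 0) (Finset.mem_univ _)
      rw [wv_apply hq] at h1
      simp [sgn] at h1
    · have hadj : (J n 4 0).Adj ⟨wv q, wv_mem hq, wv_support hq⟩
          ⟨wv q', wv_mem hq', wv_support hq'⟩ := by
        refine ⟨fun h => hne (congrArg Subtype.val h), h0⟩
      exact c.valid hadj (Fin.ext heq)
  have := core ⟨0, hpos⟩ C (C * n) le_rfl κ hlt hκ
  omega

end Pool.Agent.Results.MP_9d843c_co.NotLinear
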